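import Pool.Agent.H49.HX.MPW
import Pool.Agent.H52.HX.EPB
import Pool.Agent.H78.HX.RED
import Pool.Agent.H8.HZ.GOD

/-!
# Points of a hypersurface with a good orbit
-/

open MvPolynomial IsLocalRing
open Pool.Agent.H12.ZD (pmap v O Res DenseOrbit NoInv)
open Pool.Agent.H18.HIT Pool.Agent.H18.HX

namespace Pool.Agent.H8.HX

section alg

variable {N : ℕ} {k : Type} [Field k]

/-- an irreducible polynomial which is monic in `X 0` has positive degree in `X 0` -/
theorem natDegree_pos_of_irr {P : Po (N + 1) k} (hm : Mny P) (hi : Irreducible P) :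
    0 < (finSuccEquiv k N P).natDegree := by
  rcases Nat.eq_zero_or_pos (finSuccEquiv k N P).natDegree with h | h
  · exfalso
    have h1 : finSuccEquiv k N P = 1 := hm.natDegree_eq_zero.mp h
    apply hi.not_isUnit
    have h2 : P = 1 := by
      apply (finSuccEquiv k N).injective
      rw [h1, map_one]
    rw [h2]
    exact isUnit_one
  · exact h

/-- the derivative in the variable `X 0` is not divisible by `P` -/
theorem not_dvd_pderiv [CharZero k] {P : Po (N + 1) k} (hm : Mny P) (hi : Irreducible P) :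
    ¬ P ∣ pderiv 0 P := by
  intro h
  have hpos := natDegree_pos_of_irr hm hi
  have h1 : finSuccEquiv k N P ∣ Polynomial.derivative (finSuccEquiv k N P) := by
    rw [← Pool.Agent.H52.HX.fse_pderiv]
    exact map_dvd (finSuccEquiv k N) h
  have h2 : Polynomial.derivative (finSuccEquiv k N P) ≠ 0 := by
    intro h0
    have h3 := Polynomial.derivative_eq_zero.mp h0
    omega
  have h3 : (Polynomial.derivative (finSuccEquiv k N P)).degree < (finSuccEquiv k N P).degree :=
    Polynomial.degree_derivative_lt hm.ne_zero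
  exact hm.not_dvd_of_degree_lt h2 h3 h1

/-- `P` does not divide the factor `cc` -/
theorem not_dvd_cc [CharZero k] {P : Po (N + 1) k} {F : Tup (N + 1) k} {b : Po (N + 1) k}
    (hm : Mny P) (hi : Irreducible P) (hF : Slf (Ideal.span {P}) F) (hb : ¬ P ∣ b) :
    ¬ P ∣ cc P F b := by
  have h0 : ¬ P ∣ aeval F (pderiv 0 P) := by
    intro h
    have h1 := hF.inj _ (Ideal.mem_span_singleton.mpr h)
    exact not_dvd_pderiv hm hi (Ideal.mem_span_singleton.mp h1)
  have h1 : ¬ P ∣ aeval F (pderiv 0 P) * b := by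
    intro h
    rcases hi.prime.dvd_or_dvd h with h | h
    · exact h0 h
    · exact hb h
  have h2 : ∀ (n : ℕ) (h : Po (N + 1) k), ¬ P ∣ h → ¬ P ∣ (fun h => aeval F h)^[n] h := by
    intro n
    induction n with
    | zero => intro h hh; exact hh
    | succ n ih =>
      intro h hh hd
      rw [Function.iterate_succ_apply'] at hd
      have h3 := hF.inj _ (Ideal.mem_span_singleton.mpr hd)
      exact ih h hh (Ideal.mem_span_singleton.mp h3)
  exact h2 (N + 1) _ h1

end alg

/-- polynomials with Frobenius-fixed coefficients -/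
theorem map_frob_eq {N : ℕ} {κ : Type} [Field κ] (p : ℕ) [Fact p.Prime] [CharP κ p] (t : ℕ)
    (g : Po N κ) (h : ∀ u, coeff u g ^ (p ^ t) = coeff u g) :
    map (iterateFrobenius κ p t) g = g := by
  ext u
  rw [coeff_map, iterateFrobenius_def]
  exact h u

/-- divisibility by `P` over the valuation ring -/
theorem dvd_of_map_dvd {N : ℕ} (p : Nat.Primes) (P₀ w₀ : Po (N + 1) (O p)) (hm : Mny P₀)
    (h : map (O p).subtype P₀ ∣ map (O p).subtype w₀) : P₀ ∣ w₀ := by
  rw [Pool.Agent.H78.HX.dvd_iff_rm _ _ (Pool.Agent.H78.HX.Mny_map _ P₀ hm),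
    Pool.Agent.H78.HX.rm_map _ P₀ w₀ hm] at h
  rw [Pool.Agent.H78.HX.dvd_iff_rm _ _ hm]
  apply Polynomial.map_injective _ (map_injective _ (O p).subtype_injective)
  rw [h, Polynomial.map_zero]

theorem pf_GDX (hWPO : T_WPO) (hIND : T_IND) (hMPW : T_MPW) (hFRY : T_FRY) (hRED : T_RED)
    (hLFX : T_LFX) : T_GDX := by
  intro N r d M P F s hN hP hF hS hs
  classical
  have hdd : DecidableEq (Po (N + 1) Qb) := Classical.decEq _
  set b : Po (N + 1) Qb := ∏ g ∈ s, g with hbdef
  have hbP : ¬ P ∣ b := by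
    intro h
    obtain ⟨g, hg, h1⟩ := (hP.irr.prime.dvd_finsetProd_iff _).mp h
    exact (hs g hg).2 h1
  -- the degree of the product
  have hbh : ∃ m, b.IsHomogeneous m := by
    have h1 : ∀ g : Po (N + 1) Qb, ∃ m : ℕ, g ∈ s → g.IsHomogeneous m := by
      intro g
      by_cases hg : g ∈ s
      · obtain ⟨m, hm⟩ := (hs g hg).1
        exact ⟨m, fun _ => hm⟩
      · exact ⟨0, fun h => absurd h hg⟩
    choose m hm using h1
    exact ⟨∑ g ∈ s, m g, IsHomogeneous.prod s (fun g => g) m fun g hg => hm g hg⟩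
  obtain ⟨m, hbm⟩ := hbh
  -- the degree of P
  have hr1 : 1 ≤ r := by
    rcases Nat.eq_zero_or_pos r with h | h
    · exfalso
      have h1 : P.totalDegree = 0 := by
        have h2 := hP.hom.totalDegree_le
        omega
      have h2 := natDegree_pos_of_irr hP.mon hP.irr
      rw [natDegree_finSuccEquiv] at h2
      have h3 := degreeOf_le_totalDegree P 0
      omega
    · exact h
  have hcP := not_dvd_cc hP.mon hP.irr hS hbP
  obtain ⟨D, hD⟩ := hWPO N Qb P hP.irr hP.mon (Ix N r) (fun l => gl P F (cc P F b) l)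
    (hIND N r Qb P F (cc P F b) hP hS hcP)
  change ¬ P ∣ wr P F (cc P F b) D at hD
  obtain ⟨M₁, hM₁⟩ := hRED N P (wr P F (cc P F b) D) hP.mon hD
  obtain ⟨M₂, hM₂⟩ := Pool.Agent.H12.ZD.exists_bound_lift P
  obtain ⟨M₃, hM₃⟩ := Pool.Agent.H12.ZD.exists_bound_system F
  choose M₄ hM₄ using fun g : Po (N + 1) Qb => Pool.Agent.H12.ZD.exists_bound_lift g
  obtain ⟨q, hq1, hq2⟩ := Nat.exists_infinite_primes
    (max M (max M₁ (max M₂ (max M₃ (s.sup M₄)))) + 1)
  set p : Nat.Primes := ⟨q, hq2⟩ with hp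
  have hpq : (p : ℕ) = q := rfl
  have hpM : M < (p : ℕ) := by rw [hpq]; omega
  have hpM1 : M₁ < (p : ℕ) := by rw [hpq]; omega
  have hpM2 : M₂ < (p : ℕ) := by rw [hpq]; omega
  have hpM3 : M₃ < (p : ℕ) := by rw [hpq]; omega
  have hpM4 : s.sup M₄ < (p : ℕ) := by rw [hpq]; omega
  obtain ⟨P₀, hP₀, -⟩ := hM₂ p hpM2
  obtain ⟨F₀, hF₀⟩ := hM₃ p hpM3
  have hlf : ∀ g : Po (N + 1) Qb, ∃ g₀ : Po (N + 1) (O p), g ∈ s →
      map (O p).subtype g₀ = g := by
    intro g
    by_cases hg : g ∈ s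
    · obtain ⟨g₀, hg₀, -⟩ := hM₄ g p (lt_of_le_of_lt (Finset.le_sup hg) hpM4)
      exact ⟨g₀, fun _ => hg₀⟩
    · exact ⟨0, fun h => absurd h hg⟩
  choose lf hlf using hlf
  set b₀ : Po (N + 1) (O p) := ∏ g ∈ s, lf g with hb₀def
  have hb₀ : map (O p).subtype b₀ = b := by
    rw [hb₀def, map_prod, hbdef]
    exact Finset.prod_congr rfl fun g hg => hlf g hg
  have hinj : Function.Injective (map (O p).subtype : Po (N + 1) (O p) → _) :=
    map_injective _ (O p).subtype_injective
  have hmp : mp (O p).subtype F₀ = F := hF₀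
  have hm₀ : Mny P₀ := by
    have h1 := hP.mon
    rw [← hP₀] at h1
    unfold Mny at h1 ⊢
    rw [Pool.Agent.H49.HX.fse_map] at h1
    exact Polynomial.monic_of_injective (map_injective _ (O p).subtype_injective) h1
  -- the Wronskian over the valuation ring
  set w₀ : Po (N + 1) (O p) := wr P₀ F₀ (cc P₀ F₀ b₀) D with hw₀def
  have hw₀ : map (O p).subtype w₀ = wr P F (cc P F b) D := by
    have h1 := hMPW N r (O p) Qb (O p).subtype P₀ F₀ (cc P₀ F₀ b₀)
    have h2 := hMPW N r (O p) Qb (O p).subtype P₀ F₀ b₀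
    have h3 := h1.2.2.1 D
    rw [← h2.2.2.2, hmp, hb₀, hP₀] at h3
    exact h3.symm
  have hnd := hM₁ p hpM1 P₀ w₀ hm₀ hP₀ hw₀
  set Pb : Po (N + 1) (Res p) := map (residue (O p)) P₀ with hPb
  set Fb : Tup (N + 1) (Res p) := fun i => map (residue (O p)) (F₀ i) with hFb
  set bb : Po (N + 1) (Res p) := map (residue (O p)) b₀ with hbb
  have hwb : map (residue (O p)) w₀ = wr Pb Fb (cc Pb Fb bb) D := by
    have h1 := hMPW N r (O p) (Res p) (residue (O p)) P₀ F₀ (cc P₀ F₀ b₀)
    have h2 := hMPW N r (O p) (Res p) (residue (O p)) P₀ F₀ b₀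
    have h3 := h1.2.2.1 D
    rw [← h2.2.2.2] at h3
    exact h3.symm
  rw [hwb] at hnd
  have hmb : Mny Pb := (hMPW N r (O p) (Res p) (residue (O p)) P₀ F₀ b₀).1 hm₀
  -- homogeneity descends and ascends
  have hhom : ∀ (n : ℕ) (g₀ : Po (N + 1) (O p)), (map (O p).subtype g₀).IsHomogeneous n →
      (map (residue (O p)) g₀).IsHomogeneous n := by
    intro n g₀ h
    have h1 : g₀.IsHomogeneous n := by
      intro u hu
      apply h
      rw [coeff_map]
      intro h0
      apply hu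
      exact (O p).subtype_injective (by rw [h0, map_zero])
    exact h1.map _
  have hPbh : Pb.IsHomogeneous r := hhom r P₀ (by rw [hP₀]; exact hP.hom)
  have hFbh : ∀ i, (Fb i).IsHomogeneous d := by
    intro i
    apply hhom
    have h1 : map (O p).subtype (F₀ i) = F i := congrFun hF₀ i
    rw [h1]
    exact hF i
  have hbbh : bb.IsHomogeneous m := hhom m b₀ (by rw [hb₀]; exact hbm)
  -- divisibility over the residue field
  have hdiv0 : P₀ ∣ aeval F₀ P₀ := by
    apply dvd_of_map_dvd p _ _ hm₀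
    have h1 := Pool.Agent.H49.HX.aeval_mp (O p).subtype F₀ P₀
    rw [← h1, hP₀]
    have h2 : (fun i => map (O p).subtype (F₀ i)) = F := hF₀
    rw [h2]
    exact Ideal.mem_span_singleton.mp (hS.inv P (Ideal.mem_span_singleton_self P))
  have hdivb : Pb ∣ aeval Fb Pb := by
    have h1 := Pool.Agent.H49.HX.aeval_mp (residue (O p)) F₀ P₀
    rw [hPb, hFb, h1]
    exact map_dvd (map (residue (O p))) hdiv0
  have : CharP (Res p) (p : ℕ) := Pool.Agent.H8.HZ.charP_res p
  have : Fact (p : ℕ).Prime := ⟨p.2⟩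
  -- the Frobenius power
  set S : Finset (Res p) := (Pb.support.image fun u => coeff u Pb) ∪
    ((bb.support.image fun u => coeff u bb) ∪
    Finset.univ.biUnion (fun i => (Fb i).support.image fun u => coeff u (Fb i))) with hSdef
  obtain ⟨s0, hs1, hs0⟩ := Pool.Agent.H8.HZ.exists_fix_finset p S
  set B : ℕ := max d (max r (wr Pb Fb (cc Pb Fb bb) D).totalDegree) with hB
  have hlarge : B < (p : ℕ) ^ (s0 * (B + 1)) := by
    calc B < B + 1 := Nat.lt_succ_self _
      _ ≤ s0 * (B + 1) := Nat.le_mul_of_pos_left _ hs1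
      _ < (p : ℕ) ^ (s0 * (B + 1)) := Nat.lt_pow_self p.2.one_lt
  set t := s0 * (B + 1) with ht
  have ht1 : 1 ≤ t := Nat.le_trans hs1 (Nat.le_mul_of_pos_right _ (Nat.succ_pos B))
  have hfixS : ∀ a ∈ S, ∀ k, a ^ ((p : ℕ) ^ (t * k)) = a := by
    intro a ha k
    exact Pool.Agent.H8.HZ.pow_fix p (Pool.Agent.H8.HZ.pow_fix p (hs0 a ha) (B + 1)) k
  have hfix : ∀ g : Po (N + 1) (Res p), (∀ u ∈ g.support, coeff u g ∈ S) → ∀ k u,
      coeff u g ^ ((p : ℕ) ^ (t * k)) = coeff u g := by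
    intro g hg k u
    by_cases hu : u ∈ g.support
    · exact hfixS _ (hg u hu) k
    · rw [notMem_support_iff.mp hu, zero_pow (pow_ne_zero _ p.2.ne_zero)]
  have hfixP := hfix Pb fun u hu => Finset.mem_union_left _ (Finset.mem_image_of_mem
    (fun u => coeff u Pb) hu)
  have hfixb := hfix bb fun u hu => Finset.mem_union_right _ (Finset.mem_union_left _
    (Finset.mem_image_of_mem (fun u => coeff u bb) hu))
  have hfixF : ∀ i, ∀ k u, coeff u (Fb i) ^ ((p : ℕ) ^ (t * k)) = coeff u (Fb i) := fun i =>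
    hfix (Fb i) fun u hu => Finset.mem_union_right _ (Finset.mem_union_right _
      (Finset.mem_biUnion.mpr ⟨i, Finset.mem_univ i,
        Finset.mem_image_of_mem (fun u => coeff u (Fb i)) hu⟩))
  have hone : ∀ g : Po (N + 1) (Res p), (∀ k u,
      coeff u g ^ ((p : ℕ) ^ (t * k)) = coeff u g) →
      map (iterateFrobenius (Res p) (p : ℕ) t) g = g := by
    intro g hg
    apply map_frob_eq
    intro u
    have h1 := hg 1 u
    rwa [mul_one] at h1
  obtain ⟨x, hx1, hx2, hx3⟩ := hFRY N r d m (p : ℕ) t (Res p) Pb Fb bb D ht1 hr1 hPbh hmb hFbh hbbh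
    (lt_of_le_of_lt (le_max_left _ _) hlarge)
    (le_of_lt (lt_of_le_of_lt ((le_max_left _ _).trans (le_max_right _ _)) hlarge))
    (hone Pb hfixP) (fun i => hone (Fb i) (hfixF i)) (hone bb hfixb) hdivb
    (lt_of_le_of_lt ((le_max_right _ _).trans (le_max_right _ _)) hlarge) hnd
  obtain ⟨a, ha, ha0⟩ := hLFX N p P₀ hm₀ x hx1
  refine ⟨p, P₀, F₀, a, hpM, hm₀, hP₀, fun i => congrFun hF₀ i, ha0, ?_⟩
  have horb : ∀ n, (pmap Fb)^[n] x = fun i => x i ^ ((p : ℕ) ^ (t * n)) := by
    intro n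
    induction n with
    | zero => ext i; simp
    | succ n ih =>
      rw [Function.iterate_succ_apply', ih]
      ext i
      rw [pmap, Pool.Agent.H8.HZ.eval_pow_of_fixed (p : ℕ) (t * n) (Fb i) (hfixF i n) x, hx2,
        ← pow_mul, ← pow_add]
      congr 2
      ring
  have hval : ∀ n, eval ((pmap Fb)^[n] x) bb ≠ 0 := by
    intro n
    rw [horb, Pool.Agent.H8.HZ.eval_pow_of_fixed (p : ℕ) (t * n) bb (hfixb n) x]
    exact pow_ne_zero _ hx3
  have hxa : x = fun i => residue (O p) (a i) := funext fun i => (ha i).symm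
  intro g hg n
  have h5 : (pmap Fb)^[n] x = fun i => residue (O p) ((pmap F₀)^[n] a i) := by
    rw [hxa]
    exact Pool.Agent.H12.ZD.pmap_iterate_map (residue (O p)) F₀ a n
  have h6 := hval n
  have h7 : ∀ g : Po (N + 1) (O p),
      eval (fun i => residue (O p) ((pmap F₀)^[n] a i)) (map (residue (O p)) g) =
        residue (O p) (eval ((pmap F₀)^[n] a) g) := by
    intro g
    rw [eval_map, eval₂_comp]
    rfl
  rw [h5, hbb, h7, hb₀def, map_prod, map_prod] at h6
  have h8 := (Finset.prod_ne_zero_iff.mp h6) g hg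
  have h9 := (Pool.Agent.H12.ZD.residue_ne_zero p).mp h8
  have h10 : eval (cO ((pmap F₀)^[n] a)) g = ((eval ((pmap F₀)^[n] a) (lf g) : O p) : Qb) := by
    conv_lhs => rw [← hlf g hg]
    rw [eval_map]
    unfold cO
    have h11 := eval₂_comp (O p).subtype ((pmap F₀)^[n] a) (lf g)
    exact h11.symm
  rw [h10]
  exact h9

end Pool.Agent.H8.HX
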