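import Pool.Agent.H18.HX.Targets

set_option autoImplicit false

open MvPolynomial
open Pool.Agent.H12.ZD (pmap v O Res DenseOrbit NoInv)
open Pool.Agent.H18.HIT Pool.Agent.H18.HX

namespace Pool.Agent.H8.HX

/-- a primitive element which is integral -/
theorem PEG_theta {S R : Type} [CommRing S] [IsDomain S] [CommRing R] [IsDomain R]
    [Algebra S R] [FaithfulSMul S R] [Algebra.IsAlgebraic S R]
    [CharZero S] {N : ℕ} (x : Fin N → R) :
    ∃ θ : R, IsIntegral S θ ∧ ∃ Δ : S, Δ ≠ 0 ∧ ∃ P : Fin N → Polynomial S,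
      ∀ i, algebraMap S R Δ * x i = Polynomial.aeval θ (P i) := by
  classical
  let L := FractionRing R
  have hinjSR : Function.Injective (algebraMap S R) := FaithfulSMul.algebraMap_injective S R
  have hinjRL : Function.Injective (algebraMap R L) := IsFractionRing.injective R L
  have hinjSL : Function.Injective (algebraMap S L) := by
    rw [IsScalarTower.algebraMap_eq S R L]
    exact hinjRL.comp hinjSR
  have : FaithfulSMul S L := (faithfulSMul_iff_algebraMap_injective S L).mpr hinjSL
  let _ : Algebra (FractionRing S) L := FractionRing.liftAlgebra S L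
  have : IsScalarTower S (FractionRing S) L := FractionRing.isScalarTower_liftAlgebra S L
  have : CharZero (FractionRing S) :=
    charZero_of_injective_algebraMap (IsFractionRing.injective S (FractionRing S))
  have hxalg : ∀ r : R, IsAlgebraic (FractionRing S) (algebraMap R L r) := by
    intro r
    have h1 : IsAlgebraic S r := Algebra.IsAlgebraic.isAlgebraic r
    have h2 : IsAlgebraic S (algebraMap R L r) := h1.algebraMap
    exact h2.extendScalars (IsFractionRing.injective S (FractionRing S))
  let M := IntermediateField.adjoin (FractionRing S) (Set.range fun i => algebraMap R L (x i))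
  have hfin : FiniteDimensional (FractionRing S) M := by
    have : Finite (Set.range fun i => algebraMap R L (x i)) := inferInstance
    apply IntermediateField.finiteDimensional_adjoin
    rintro y ⟨i, rfl⟩
    exact (hxalg (x i)).isIntegral
  obtain ⟨θ₀, hθ₀⟩ := Field.exists_primitive_element (FractionRing S) M
  have hθ₀alg : IsAlgebraic S (θ₀ : L) := by
    have h1 : IsAlgebraic (FractionRing S) θ₀ := Algebra.IsAlgebraic.isAlgebraic θ₀
    have h2 : IsAlgebraic (FractionRing S) (θ₀ : L) := h1.algebraMap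
    exact (IsFractionRing.isAlgebraic_iff S (FractionRing S) L).mpr h2
  obtain ⟨s₁, hs₁0, hs₁⟩ := hθ₀alg.exists_integral_multiple
  -- a common denominator in `S`
  obtain ⟨s₂, hs₂0, b₂, hb₂⟩ : ∃ s₂ : S, s₂ ≠ 0 ∧ ∃ b : R, algebraMap R L b = s₂ • (θ₀ : L) := by
    obtain ⟨a, d, hd, had⟩ := IsFractionRing.div_surjective (A := R) (θ₀ : L)
    obtain ⟨r, hr0, c, hc⟩ := (Algebra.IsAlgebraic.isAlgebraic (R := S) d).exists_nonzero_dvd hd
    refine ⟨r, hr0, a * c, ?_⟩
    have hd0 : algebraMap R L d ≠ 0 := by
      intro h0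
      exact nonZeroDivisors.ne_zero hd (hinjRL (by rw [h0, map_zero]))
    rw [← had, Algebra.smul_def, IsScalarTower.algebraMap_apply S R L, hc, map_mul, map_mul,
      mul_div_assoc', eq_div_iff hd0]
    ring
  obtain ⟨s, hs_def⟩ : ∃ s : S, s = s₁ * s₂ := ⟨_, rfl⟩
  have hs0 : s ≠ 0 := by
    rw [hs_def]
    exact mul_ne_zero hs₁0 hs₂0
  have hs : IsIntegral S (s • (θ₀ : L)) := by
    rw [hs_def, mul_comm, mul_smul]
    exact hs₁.smul s₂
  obtain ⟨θ, hθ⟩ : ∃ θ : R, algebraMap R L θ = s • (θ₀ : L) := by
    refine ⟨algebraMap S R s₁ * b₂, ?_⟩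
    rw [map_mul, hb₂, ← IsScalarTower.algebraMap_apply, ← Algebra.smul_def, smul_smul, ← hs_def]
  have hθint : IsIntegral S θ := by
    rw [← isIntegral_algebraMap_iff hinjRL, hθ]
    exact hs
  refine ⟨θ, hθint, ?_⟩
  -- every x i is a polynomial in θ
  have hθF : IsIntegral (FractionRing S) (algebraMap R L θ) := by
    rw [hθ]
    exact hs.tower_top
  have hmem : ∀ i, algebraMap R L (x i) ∈
      IntermediateField.adjoin (FractionRing S) {algebraMap R L θ} := by
    intro i
    have h1 : algebraMap R L (x i) ∈ M := IntermediateField.subset_adjoin _ _ ⟨i, rfl⟩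
    have h2 : (⟨algebraMap R L (x i), h1⟩ : M) ∈
        IntermediateField.adjoin (FractionRing S) {θ₀} := by
      rw [hθ₀]
      exact IntermediateField.mem_top
    have h3 : IntermediateField.adjoin (FractionRing S) {(θ₀ : L)} ≤
        IntermediateField.adjoin (FractionRing S) {algebraMap R L θ} := by
      rw [IntermediateField.adjoin_simple_le_iff]
      have h4 : (θ₀ : L) = (algebraMap S (FractionRing S) s)⁻¹ • (algebraMap R L θ) := by
        rw [hθ, ← algebraMap_smul (FractionRing S) s (θ₀ : L), smul_smul, inv_mul_cancel₀,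
          one_smul]
        intro h0
        exact hs0 ((IsFractionRing.injective S (FractionRing S)) (by rw [h0, map_zero]))
      rw [h4]
      exact IntermediateField.smul_mem _ (IntermediateField.mem_adjoin_simple_self _ _)
    apply h3
    have h5 := (IntermediateField.mem_adjoin_simple_iff (FractionRing S) _).mp h2
    obtain ⟨r, t, hrt⟩ := h5
    rw [IntermediateField.mem_adjoin_simple_iff]
    refine ⟨r, t, ?_⟩
    have h6 := congrArg (algebraMap M L) hrt
    rw [map_div₀] at h6
    rw [show algebraMap M L (⟨algebraMap R L (x i), h1⟩ : M) = algebraMap R L (x i) from rfl] at h6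
    rw [h6, ← Polynomial.aeval_algebraMap_apply, ← Polynomial.aeval_algebraMap_apply]
    rfl
  have hpol : ∀ i, ∃ (b : S) (P : Polynomial S), b ≠ 0 ∧
      algebraMap S R b * x i = Polynomial.aeval θ P := by
    intro i
    have h1 := hmem i
    rw [← IntermediateField.mem_toSubalgebra,
      IntermediateField.adjoin_simple_toSubalgebra_of_isAlgebraic hθF.isAlgebraic,
      Algebra.adjoin_singleton_eq_range_aeval] at h1
    obtain ⟨p, hp⟩ := h1
    obtain ⟨b, hb, hbp⟩ := IsLocalization.integerNormalization_spec (nonZeroDivisors S) p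
    refine ⟨b, IsLocalization.integerNormalization (nonZeroDivisors S) p,
      nonZeroDivisors.ne_zero hb, ?_⟩
    apply hinjRL
    rw [map_mul, ← Polynomial.aeval_algebraMap_apply, ← IsScalarTower.algebraMap_apply,
      ← Polynomial.aeval_map_algebraMap (FractionRing S), hbp]
    rw [← algebraMap_smul (FractionRing S) b p, map_smul]
    have h2 : (Polynomial.aeval (algebraMap R L θ)) p = algebraMap R L (x i) := hp
    rw [h2, algebraMap_smul, Algebra.smul_def]
  choose b P hb hP using hpol
  refine ⟨∏ i, b i, Finset.prod_ne_zero_iff.mpr fun i _ => hb i,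
    fun i => Polynomial.C (∏ j ∈ Finset.univ.erase i, b j) * P i, fun i => ?_⟩
  rw [map_mul, Polynomial.aeval_C, ← hP i, ← mul_assoc, ← map_mul,
    Finset.prod_erase_mul _ _ (Finset.mem_univ i)]

theorem pf_PEG : T_PEG := by
  classical
  intro L N k _ _ I _ g hinj halg
  let φ : Po N k →+* (Po L k ⧸ I) :=
    (Ideal.Quotient.mk I).comp (aeval g : Po N k →ₐ[k] Po L k).toRingHom
  let _ : Algebra (Po N k) (Po L k ⧸ I) := φ.toAlgebra
  have hφ : ∀ q, algebraMap (Po N k) (Po L k ⧸ I) q = Ideal.Quotient.mk I (aeval g q) :=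
    fun q => rfl
  have hφinj : Function.Injective (algebraMap (Po N k) (Po L k ⧸ I)) := by
    rw [injective_iff_map_eq_zero]
    intro q hq
    rw [hφ, Ideal.Quotient.eq_zero_iff_mem] at hq
    exact hinj q hq
  have : FaithfulSMul (Po N k) (Po L k ⧸ I) :=
    (faithfulSMul_iff_algebraMap_injective _ _).mpr hφinj
  have hev : ∀ (θ : Po L k) (Q : Polynomial (Po N k)),
      Polynomial.aeval (Ideal.Quotient.mk I θ) Q = Ideal.Quotient.mk I (evg g θ Q) := by
    intro θ Q
    rw [evg, Polynomial.hom_eval₂, Polynomial.aeval_def]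
    rfl
  have : Algebra.IsAlgebraic (Po N k) (Po L k ⧸ I) := by
    constructor
    intro b
    obtain ⟨q, rfl⟩ := Ideal.Quotient.mk_surjective b
    induction q using MvPolynomial.induction_on with
    | C a =>
      have h1 : Ideal.Quotient.mk I (C a : Po L k) =
          algebraMap (Po N k) (Po L k ⧸ I) (C a) := by
        rw [hφ, aeval_C]
        rfl
      rw [h1]
      exact isAlgebraic_algebraMap _
    | add p q hp hq =>
      rw [map_add]
      exact hp.add hq
    | mul_X p i hp =>
      rw [map_mul]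
      refine hp.mul ?_
      obtain ⟨Q, hQ0, hQ⟩ := halg i
      refine ⟨Q, hQ0, ?_⟩
      rw [hev, Ideal.Quotient.eq_zero_iff_mem]
      exact hQ
  obtain ⟨θ', hθ', Δ, hΔ, R, hR⟩ := PEG_theta (S := Po N k)
    (fun i : Fin L => Ideal.Quotient.mk I (X i : Po L k))
  obtain ⟨θ, rfl⟩ := Ideal.Quotient.mk_surjective θ'
  refine ⟨θ, minpoly (Po N k) (Ideal.Quotient.mk I θ), Δ, R, minpoly.monic hθ',
    minpoly.irreducible hθ', ?_, hΔ, ?_⟩
  · rw [← Ideal.Quotient.eq_zero_iff_mem, ← hev, minpoly.aeval]
  · intro i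
    have h1 := hR i
    rw [hφ, hev, ← map_mul] at h1
    exact Ideal.Quotient.eq.mp h1

end Pool.Agent.H8.HX
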