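import Pool.Agent.H18.HX.Targets
import Pool.Agent.H8.HZ.FBA
import Pool.Agent.H55.HIT.PNI

/-!
# Bounded representations modulo `(P, x_i ^ s - h_i)`
-/

open MvPolynomial
open Pool.Agent.H12.ZD (pmap v O Res DenseOrbit NoInv)
open Pool.Agent.H18.HIT Pool.Agent.H18.HX
open Pool.Agent.H8.HZ (Lo L lo_L_sub L_injective L_surjective L_X_pow_mul)

namespace Pool.Agent.H8.HX

section mono

variable {N : ℕ} {κ : Type} [Field κ]

/-- all monomials of `w` have some exponent `≥ s` in the variables `X i.succ` -/
def XS (s : ℕ) (w : Po (N + 1) κ) : Prop := ∀ m ∈ w.support, ∃ i : Fin N, s ≤ m i.succ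

theorem xs_zero (s : ℕ) : XS s (0 : Po (N + 1) κ) := by
  intro m hm
  simp at hm

theorem xs_add {s : ℕ} {a b : Po (N + 1) κ} (ha : XS s a) (hb : XS s b) : XS s (a + b) := by
  classical
  intro m hm
  rcases Finset.mem_union.mp (support_add hm) with h | h
  · exact ha m h
  · exact hb m h

theorem xs_sum {s : ℕ} {ι : Type} (t : Finset ι) {a : ι → Po (N + 1) κ}
    (ha : ∀ i ∈ t, XS s (a i)) : XS s (∑ i ∈ t, a i) := by
  classical
  induction t using Finset.induction_on with
  | empty => rw [Finset.sum_empty]; exact xs_zero s
  | insert i t hi ih =>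
    rw [Finset.sum_insert hi]
    exact xs_add (ha i (Finset.mem_insert_self i t))
      (ih fun j hj => ha j (Finset.mem_insert_of_mem hj))

theorem xs_neg {s : ℕ} {a : Po (N + 1) κ} (ha : XS s a) : XS s (-a) := by
  intro m hm
  rw [support_neg] at hm
  exact ha m hm

theorem xs_X_pow_mul {s : ℕ} (i : Fin N) (a : Po (N + 1) κ) : XS s (X i.succ ^ s * a) := by
  intro m hm
  refine ⟨i, ?_⟩
  rw [mem_support_iff, X_pow_eq_monomial, coeff_monomial_mul'] at hm
  by_contra h
  apply hm
  rw [if_neg]
  rw [Finsupp.single_le_iff]
  exact h

theorem xs_component {s : ℕ} {a : Po (N + 1) κ} (ha : XS s a) (m : ℕ) :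
    XS s (homogeneousComponent m a) := by
  intro c hc
  apply ha c
  rw [mem_support_iff, coeff_homogeneousComponent] at hc
  rw [mem_support_iff]
  intro h
  apply hc
  rw [h, ite_self]

/-- decomposition -/
theorem xs_decomp {s D : ℕ} {w : Po (N + 1) κ} (hw : XS s w) (hD : Lo (D + 1) w) :
    ∃ G : Fin N → Po (N + 1) κ, w = ∑ i, X i.succ ^ s * G i ∧
      ∀ i, G i = 0 ∨ (G i).totalDegree + s ≤ D := by
  classical
  rcases isEmpty_or_nonempty (Fin N) with hE | hE
  · refine ⟨fun i => 0, ?_, fun i => Or.inl rfl⟩
    have h0 : w = 0 := by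
      ext m
      rw [coeff_zero]
      by_contra h
      obtain ⟨i, -⟩ := hw m (mem_support_iff.mpr h)
      exact hE.elim i
    rw [h0]
    simp
  choose! j hj using hw
  refine ⟨fun i => ∑ m ∈ w.support.filter (fun m => j m = i),
    monomial (m - Finsupp.single i.succ s) (coeff m w), ?_, ?_⟩
  · have h1 : ∀ i, X i.succ ^ s * (∑ m ∈ w.support.filter (fun m => j m = i),
        monomial (m - Finsupp.single i.succ s) (coeff m w)) =
        ∑ m ∈ w.support.filter (fun m => j m = i), monomial m (coeff m w) := by
      intro i
      rw [Finset.mul_sum]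
      apply Finset.sum_congr rfl
      intro m hm
      rw [Finset.mem_filter] at hm
      have h2 : Finsupp.single i.succ s ≤ m := by
        rw [Finsupp.single_le_iff, ← hm.2]
        exact hj m hm.1
      rw [X_pow_eq_monomial, monomial_mul, one_mul, add_tsub_cancel_of_le h2]
    rw [Finset.sum_congr rfl fun i _ => h1 i]
    rw [Finset.sum_fiberwise]
    exact (support_sum_monomial_coeff w).symm
  · intro i
    by_cases h0 : (∑ m ∈ w.support.filter (fun m => j m = i),
        monomial (m - Finsupp.single i.succ s) (coeff m w)) = 0
    · exact Or.inl h0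
    · right
      obtain ⟨m₀, hm₀⟩ : ∃ m₀, m₀ ∈ w.support.filter (fun m => j m = i) := by
        by_contra hcon
        push Not at hcon
        apply h0
        rw [Finset.eq_empty_of_forall_notMem hcon, Finset.sum_empty]
      have hdeg : ∀ m ∈ w.support.filter (fun m => j m = i), m.degree ≤ D ∧ s ≤ m i.succ := by
        intro m hm
        rw [Finset.mem_filter] at hm
        constructor
        · by_contra h
          exact (mem_support_iff.mp hm.1) (hD m (by omega))
        · rw [← hm.2]
          exact hj m hm.1
      have hs : s ≤ D := ((hdeg m₀ hm₀).2.trans (Finsupp.le_degree i.succ m₀)).trans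
        (hdeg m₀ hm₀).1
      have h3 : (∑ m ∈ w.support.filter (fun m => j m = i),
        monomial (m - Finsupp.single i.succ s) (coeff m w)).totalDegree ≤ D - s := by
        apply totalDegree_finsetSum_le
        intro m hm
        refine (totalDegree_monomial_le _ _).trans ?_
        have h4 := hdeg m hm
        have h5 : Finsupp.single i.succ s ≤ m := by
          rw [Finsupp.single_le_iff]
          exact h4.2
        have h6 : (m - Finsupp.single i.succ s).degree + s = m.degree := by
          have h7 := congrArg Finsupp.degree (tsub_add_cancel_of_le h5)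
          rw [map_add, Finsupp.degree_single] at h7
          exact h7
        have h8 : ((m - Finsupp.single i.succ s).sum fun _ => id) =
            (m - Finsupp.single i.succ s).degree := by
          rw [Finsupp.degree_apply]; rfl
        rw [h8]
        omega
      refine (Nat.add_le_add_right h3 s).trans ?_
      omega

/-- a polynomial which is monic in `X 0` is not a zero divisor modulo the powers -/
theorem xs_of_mul {s : ℕ} {P a : Po (N + 1) κ} (hP : Mny P) (h : XS s (P * a)) : XS s a := by
  classical
  set J : Ideal (Po N κ) := Ideal.span ((fun m => monomial m (1 : κ)) ''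
    (Set.range fun i : Fin N => Finsupp.single i s)) with hJ
  have hmem : ∀ q : Po N κ, q ∈ J ↔ ∀ m ∈ q.support, ∃ i : Fin N, s ≤ m i := by
    intro q
    rw [hJ, mem_ideal_span_monomial_image]
    constructor
    · intro hq m hm
      obtain ⟨_, ⟨i, rfl⟩, hi⟩ := hq m hm
      exact ⟨i, by rwa [Finsupp.single_le_iff] at hi⟩
    · intro hq m hm
      obtain ⟨i, hi⟩ := hq m hm
      exact ⟨_, ⟨i, rfl⟩, by rwa [Finsupp.single_le_iff]⟩
  have hxs : ∀ b : Po (N + 1) κ, XS s b ↔ ∀ j, (finSuccEquiv κ N b).coeff j ∈ J := by
    intro b
    constructor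
    · intro hb j
      rw [hmem]
      intro m hm
      rw [mem_support_iff, finSuccEquiv_coeff_coeff] at hm
      obtain ⟨i, hi⟩ := hb _ (mem_support_iff.mpr hm)
      rw [Finsupp.cons_succ] at hi
      exact ⟨i, hi⟩
    · intro hb m hm
      have h1 := (hmem _).mp (hb (m 0)) m.tail
      rw [mem_support_iff, finSuccEquiv_coeff_coeff, Finsupp.cons_tail] at h1
      obtain ⟨i, hi⟩ := h1 (mem_support_iff.mp hm)
      rw [Finsupp.tail_apply] at hi
      exact ⟨i, hi⟩
  have hmap : ∀ b : Po (N + 1) κ, XS s b ↔
      (finSuccEquiv κ N b).map (Ideal.Quotient.mk J) = 0 := by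
    intro b
    rw [hxs, Polynomial.ext_iff]
    refine forall_congr' fun j => ?_
    rw [Polynomial.coeff_map, Polynomial.coeff_zero, Ideal.Quotient.eq_zero_iff_mem]
  rw [hmap] at h ⊢
  rw [map_mul, Polynomial.map_mul] at h
  exact ((hP.map (Ideal.Quotient.mk J)).mul_right_eq_zero_iff).mp h

end mono

section lo

variable {M : ℕ} {κ : Type} [Field κ] {f : Fin M → Po M κ} {Q : ℕ}

theorem lo_of_L (hQ : ∀ i, Lo Q (f i)) {d : ℕ} {w : Po M κ} (h : Lo d (L f Q w)) : Lo d w := by
  obtain ⟨e, he⟩ := Pool.Agent.H8.HZ.exists_lo w
  have key : ∀ e, Lo (d + e) w → Lo d w := by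
    intro e
    induction e with
    | zero => exact fun h => h
    | succ e ih =>
      intro he
      apply ih
      have h1 := lo_L_sub (f := f) hQ (d := d + e) he
      have h2 := (h.mono (Nat.le_add_right d e)).sub h1
      rwa [sub_sub_cancel] at h2
  exact key e (he.mono (Nat.le_add_left e d))

theorem lo_L (hQ : ∀ i, Lo Q (f i)) {d : ℕ} {w : Po M κ} (h : Lo (d + 1) w) :
    Lo (d + 1) (L f Q w) := by
  have h1 := (lo_L_sub (f := f) hQ h).mono (Nat.le_succ d)
  have h2 := h1.add h
  rwa [sub_add_cancel] at h2

theorem totalDegree_of_lo {d : ℕ} {w : Po M κ} (h : Lo (d + 1) w) : w.totalDegree ≤ d := by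
  rw [totalDegree]
  apply Finset.sup_le
  intro m hm
  by_contra hcon
  apply mem_support_iff.mp hm
  apply h
  have h2 : m.degree = m.sum fun _ e => e := by
    rw [Finsupp.degree_apply]; rfl
  omega

theorem component_of_lo {d : ℕ} {w : Po M κ} (h : Lo d w) {m : ℕ} (hm : d ≤ m) :
    homogeneousComponent m w = 0 := by
  ext c
  rw [coeff_homogeneousComponent, coeff_zero]
  split_ifs with h1
  · exact h c (by omega)
  · rfl

theorem lo_sub_component {d : ℕ} {w : Po M κ} (h : Lo (d + 1) w) :
    Lo d (w - homogeneousComponent d w) := by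
  intro m hm
  rw [coeff_sub, coeff_homogeneousComponent]
  split_ifs with h1
  · exact sub_self _
  · rw [sub_zero]
    exact h m (by omega)

end lo

theorem pf_BRL : T_BRL := by
  classical
  intro N r s δ D κ _ P h u hPh hPm hh hδs hu huD
  have hs0 : 0 < s := by omega
  set f : Fin (N + 1) → Po (N + 1) κ := Fin.cons 0 h with hf
  have hQ : ∀ i, Lo s (f i) := by
    intro i
    refine Fin.cases ?_ (fun j => ?_) i
    · rw [hf, Fin.cons_zero]
      exact Lo.zero s
    · rw [hf, Fin.cons_succ]
      exact Lo.of_totalDegree (lt_of_le_of_lt (hh j) hδs)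
  have hfs : ∀ i : Fin N, f i.succ = h i := fun i => by rw [hf, Fin.cons_succ]
  have hP0 : P ≠ 0 := by
    intro h0
    apply hPm.ne_zero
    rw [h0, map_zero]
  -- the ideal of the `X_i ^ s - h_i` is the image of the monomial ideal
  have hZ1 : ∀ c : Fin N → Po (N + 1) κ, ∃ w, XS s w ∧
      L f s w = ∑ i, (X i.succ ^ s - h i) * c i := by
    intro c
    choose G hG using fun i => L_surjective hQ (c i)
    refine ⟨∑ i, X i.succ ^ s * G i, xs_sum _ fun i _ => xs_X_pow_mul i (G i), ?_⟩
    rw [map_sum]
    apply Finset.sum_congr rfl
    intro i _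
    rw [L_X_pow_mul hs0, hG, hfs]
  have hZ2 : ∀ w, XS s w → ∃ c : Fin N → Po (N + 1) κ,
      L f s w = ∑ i, (X i.succ ^ s - h i) * c i := by
    intro w hw
    obtain ⟨d, hd⟩ := Pool.Agent.H8.HZ.exists_lo w
    obtain ⟨G, hG, -⟩ := xs_decomp hw (hd.mono (Nat.le_succ d))
    refine ⟨fun i => L f s (G i), ?_⟩
    conv_lhs => rw [hG]
    rw [map_sum]
    apply Finset.sum_congr rfl
    intro i _
    rw [L_X_pow_mul hs0, hfs]
  have key : ∀ n : ℕ, ∀ g w : Po (N + 1) κ, XS s w → u = P * g + L f s w →
      Lo (D + 1 + n) (P * g) → ∃ (g : Po (N + 1) κ) (G : Fin N → Po (N + 1) κ),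
        u = P * g + ∑ i, (X i.succ ^ s - h i) * G i ∧
        ∀ i, G i = 0 ∨ (G i).totalDegree + s ≤ D := by
    intro n
    induction n with
    | zero =>
      intro g w hw hu hlo
      have hlo : Lo (D + 1) (P * g) := hlo
      have h1 : Lo (D + 1) (L f s w) := by
        have h2 : L f s w = u - P * g := by rw [hu]; ring
        rw [h2]
        exact (Lo.of_totalDegree (by omega)).sub hlo
      have h2 := lo_of_L hQ h1
      obtain ⟨G, hG, hGd⟩ := xs_decomp hw h2
      refine ⟨g, fun i => L f s (G i), ?_, fun i => ?_⟩
      · rw [hu]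
        congr 1
        conv_lhs => rw [hG]
        rw [map_sum]
        apply Finset.sum_congr rfl
        intro i _
        rw [L_X_pow_mul hs0, hfs]
      · change L f s (G i) = 0 ∨ (L f s (G i)).totalDegree + s ≤ D
        rcases hGd i with h3 | h3
        · left
          rw [h3, map_zero]
        · right
          have h4 : Lo ((G i).totalDegree + 1) (G i) := Lo.of_totalDegree (Nat.lt_succ_self _)
          have h5 := totalDegree_of_lo (lo_L hQ h4)
          omega
    | succ n ih =>
      intro g w hw hu hlo
      set m := D + 1 + n with hm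
      -- the components of g
      have hgc : ∀ j, m < j + r → homogeneousComponent j g = 0 := by
        intro j hj
        have h1 : homogeneousComponent (r + j) (P * g) = P * homogeneousComponent j g := by
          have h2 := (show P * g = P * (homogeneousComponent j g) +
            P * (g - homogeneousComponent j g) by ring)
          rw [h2, map_add, homogeneousComponent_of_mem (n := r + j)
            (hPh.mul (homogeneousComponent_isHomogeneous j g)), if_pos rfl]
          rw [add_eq_left]
          have h3 : g - homogeneousComponent j g =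
              ∑ i ∈ (Finset.range (max g.totalDegree j + 1)).erase j,
                homogeneousComponent i g := by
            rw [sub_eq_iff_eq_add, Finset.sum_erase_add _ _ (Finset.mem_range.mpr (by omega)),
              Pool.Agent.H55.HIT.sum_hc (le_max_left _ _)]
          rw [h3, Finset.mul_sum, map_sum]
          apply Finset.sum_eq_zero
          intro i hi
          rw [homogeneousComponent_of_mem (n := r + i)
            (hPh.mul (homogeneousComponent_isHomogeneous i g)), if_neg]
          have := Finset.ne_of_mem_erase hi
          omega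
        have h2 : homogeneousComponent (r + j) (P * g) = 0 :=
          component_of_lo hlo (by omega)
        rw [h1] at h2
        exact (mul_eq_zero.mp h2).resolve_left hP0
      have hlo : Lo (m + 1) (P * g) := hlo
      rcases Nat.lt_or_ge m r with hmr | hmr
      · have hg0 : g = 0 := by
          rw [← Pool.Agent.H55.HIT.sum_hc (p := g) (a := g.totalDegree) le_rfl]
          exact Finset.sum_eq_zero fun j _ => hgc j (by omega)
        apply ih g w hw hu
        rw [hg0, mul_zero]
        exact Lo.zero _
      · set gm := homogeneousComponent (m - r) g with hgm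
        have hgmh : gm.IsHomogeneous (m - r) := homogeneousComponent_isHomogeneous _ _
        have hglo : Lo (m - r + 1) g := by
          intro c hc
          have h1 := congrArg (coeff c) (hgc c.degree (by omega))
          rw [coeff_homogeneousComponent, if_pos rfl, coeff_zero] at h1
          exact h1
        have hgmlo : Lo (m - r + 1) gm :=
          Lo.of_totalDegree (lt_of_le_of_lt hgmh.totalDegree_le (Nat.lt_succ_self _))
        have hPlo : Lo (r + 1) P :=
          Lo.of_totalDegree (lt_of_le_of_lt hPh.totalDegree_le (Nat.lt_succ_self _))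
        have hwlo : Lo (m + 1) w := by
          apply lo_of_L hQ
          have h2 : L f s w = u - P * g := by rw [hu]; ring
          rw [h2]
          exact (Lo.of_totalDegree (by omega)).sub hlo
        -- the component of degree m
        have hcomp : P * gm = - homogeneousComponent m w := by
          have h1 : homogeneousComponent m u = 0 := homogeneousComponent_eq_zero _ _ (by omega)
          have h2 : homogeneousComponent m (L f s w - w) = 0 :=
            component_of_lo (lo_L_sub hQ hwlo) le_rfl
          have h3 : homogeneousComponent m (P * (g - gm)) = 0 := by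
            rw [mul_comm]
            apply component_of_lo _ le_rfl
            have h4 := (lo_sub_component hglo).mul hPlo
            rwa [Nat.sub_add_cancel hmr] at h4
          have h4 : homogeneousComponent m (P * gm) = P * gm := by
            rw [homogeneousComponent_of_mem (n := r + (m - r)) (hPh.mul hgmh), if_pos (by omega)]
          have h5 : u = P * gm + P * (g - gm) + (L f s w - w) + w := by
            rw [hu]; ring
          have h6 := congrArg (homogeneousComponent m) h5
          rw [h1, map_add, map_add, map_add, h2, h3, h4, add_zero, add_zero] at h6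
          exact eq_neg_of_add_eq_zero_left h6.symm
        have hgmX : XS s gm := by
          apply xs_of_mul hPm
          rw [hcomp]
          exact xs_neg (xs_component (by assumption) m)
        obtain ⟨c, hc⟩ := hZ2 gm hgmX
        obtain ⟨w', hw', hLw'⟩ := hZ1 (fun i => P * c i)
        have hLw : L f s w' = P * L f s gm := by
          rw [hLw', hc, Finset.mul_sum]
          exact Finset.sum_congr rfl fun i _ => by ring
        apply ih (g - L f s gm) (w + w') (xs_add hw hw')
        · rw [hu, map_add, hLw]
          ring
        · have h1 : g - L f s gm = (g - gm) - (L f s gm - gm) := by ring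
          have h2 : Lo (m - r) (g - L f s gm) := by
            rw [h1]
            exact (lo_sub_component hglo).sub (lo_L_sub hQ hgmlo)
          have h3 := h2.mul hPlo
          rw [Nat.sub_add_cancel hmr, mul_comm] at h3
          exact h3
  obtain ⟨g, z, hz, huz⟩ := Ideal.mem_span_insert.mp hu
  obtain ⟨c, hc⟩ := Ideal.mem_span_range_iff_exists_fun.mp hz
  obtain ⟨w, hw, hLw⟩ := hZ1 c
  obtain ⟨d, hd⟩ := Pool.Agent.H8.HZ.exists_lo (P * g)
  apply key d g w hw _ (hd.mono (by omega))
  rw [hLw, huz, ← hc, mul_comm g P]
  congr 1
  exact Finset.sum_congr rfl fun i _ => mul_comm _ _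

end Pool.Agent.H8.HX
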