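import Pool.Agent.H18.HX.Targets

/-!
# Nilpotent elements modulo the Frobenius ideal
-/

open MvPolynomial
open Pool.Agent.H12.ZD (pmap v O Res DenseOrbit NoInv)
open Pool.Agent.H18.HIT Pool.Agent.H18.HX

namespace Pool.Agent.H8.HX

section

variable {N r Q : ℕ} {κ : Type} [Field κ] {P : Po (N + 1) κ} {F : Tup (N + 1) κ}

/-- the reduced exponents -/
def Rd (r Q : ℕ) (m : Fin (N + 1) →₀ ℕ) : Prop := m 0 < r ∧ ∀ i : Fin N, m i.succ < Q

/-- the span of the reduced monomials in the quotient -/
noncomputable def SpR (P : Po (N + 1) κ) (F : Tup (N + 1) κ) (r Q : ℕ) :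
    Submodule κ (Po (N + 1) κ ⧸ fid P F Q) :=
  Submodule.span κ ((fun m => Ideal.Quotient.mkₐ κ (fid P F Q) (monomial m 1)) ''
    {m | Rd r Q m})

theorem deg_le_of_mem {g : Po (N + 1) κ} {m : Fin (N + 1) →₀ ℕ} (hm : m ∈ g.support) :
    m.degree ≤ g.totalDegree := by
  have h1 := le_totalDegree hm
  have h2 : m.degree = m.sum fun _ e => e := by
    rw [Finsupp.degree_apply]; rfl
  omega

/-- the leading term of a homogeneous polynomial which is monic in `X 0` -/
theorem top_coeff (hP : P.IsHomogeneous r) (hPm : Mny P) :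
    coeff (Finsupp.single 0 r) P = 1 ∧ ∀ c ∈ P.support, c ≠ Finsupp.single 0 r → c 0 < r := by
  have hdeg : ∀ c ∈ P.support, c.degree = r := by
    intro c hc
    exact (DFunLike.congr_fun (Finsupp.degree_eq_weight_one (R := ℕ)) c).trans
      (hP (mem_support_iff.mp hc))
  set ρ := (finSuccEquiv κ N P).natDegree with hρ
  have h1 : coeff (Finsupp.single 0 ρ) P = 1 := by
    have h2 : (finSuccEquiv κ N P).coeff ρ = 1 := hPm
    have h3 := congrArg (coeff 0) h2
    rw [finSuccEquiv_coeff_coeff, coeff_zero_one] at h3
    have h4 : Finsupp.cons ρ (0 : Fin N →₀ ℕ) = Finsupp.single 0 ρ := by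
      ext i
      refine Fin.cases ?_ (fun j => ?_) i
      · rw [Finsupp.cons_zero, Finsupp.single_eq_same]
      · rw [Finsupp.cons_succ, Finsupp.single_eq_of_ne (Fin.succ_ne_zero j), Finsupp.coe_zero,
          Pi.zero_apply]
    rwa [h4] at h3
  have h2 : ρ = r := by
    have h3 := hdeg _ (mem_support_iff.mpr (by rw [h1]; exact one_ne_zero))
    rwa [Finsupp.degree_single] at h3
  rw [h2] at h1
  refine ⟨h1, fun c hc hne => ?_⟩
  by_contra hcon
  apply hne
  have h3 := hdeg c hc
  have h4 : c 0 = r := le_antisymm (h3 ▸ Finsupp.le_degree 0 c) (not_lt.mp hcon)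
  ext i
  refine Fin.cases ?_ (fun j => ?_) i
  · rw [Finsupp.single_eq_same, h4]
  · rw [Finsupp.single_eq_of_ne (Fin.succ_ne_zero j)]
    rw [Finsupp.degree_eq_sum, Fin.sum_univ_succ] at h3
    have h5 : ∑ i : Fin N, c i.succ = 0 := by omega
    exact (Finset.sum_eq_zero_iff.mp h5) j (Finset.mem_univ j)

/-- every monomial is in the span -/
theorem mono_mem (hP : P.IsHomogeneous r) (hPm : Mny P) (hF : ∀ i, (F i).totalDegree < Q) :
    ∀ (D e : ℕ) (m : Fin (N + 1) →₀ ℕ), m.degree ≤ D → m 0 ≤ e →
      Ideal.Quotient.mkₐ κ (fid P F Q) (monomial m 1) ∈ SpR P F r Q := by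
  classical
  intro D
  induction D using Nat.strong_induction_on with
  | _ D ihD =>
    intro e
    induction e using Nat.strong_induction_on with
    | _ e ihe =>
      intro m hmD hme
      by_cases hR : Rd r Q m
      · exact Submodule.subset_span ⟨m, hR, rfl⟩
      have hlin : ∀ g : Po (N + 1) κ, (∀ c ∈ g.support,
          Ideal.Quotient.mkₐ κ (fid P F Q) (monomial c 1) ∈ SpR P F r Q) →
          Ideal.Quotient.mkₐ κ (fid P F Q) g ∈ SpR P F r Q := by
        intro g hg
        rw [← support_sum_monomial_coeff g, map_sum]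
        apply Submodule.sum_mem
        intro c hc
        have h1 : monomial c (coeff c g) = coeff c g • monomial c (1 : κ) := by
          rw [smul_monomial, smul_eq_mul, mul_one]
        rw [h1, map_smul]
        exact Submodule.smul_mem _ _ (hg c hc)
      by_cases hbig : ∃ i : Fin N, Q ≤ m i.succ
      · obtain ⟨i, hi⟩ := hbig
        have hle : Finsupp.single i.succ Q ≤ m := by rwa [Finsupp.single_le_iff]
        set m' := m - Finsupp.single i.succ Q with hm'
        have hmm : m' + Finsupp.single i.succ Q = m := tsub_add_cancel_of_le hle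
        have hdeg : m'.degree + Q = m.degree := by
          have h7 := congrArg Finsupp.degree hmm
          rw [map_add, Finsupp.degree_single] at h7
          exact h7
        have heq : Ideal.Quotient.mkₐ κ (fid P F Q) (monomial m 1) =
            Ideal.Quotient.mkₐ κ (fid P F Q) (monomial m' 1 * F i.succ) := by
          rw [Ideal.Quotient.mkₐ_eq_mk, Ideal.Quotient.eq]
          have h1 : monomial m (1 : κ) - monomial m' 1 * F i.succ =
              monomial m' 1 * (X i.succ ^ Q - F i.succ) := by
            rw [mul_sub, X_pow_eq_monomial, monomial_mul, one_mul, hmm]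
          rw [h1]
          apply Ideal.mul_mem_left
          exact Ideal.subset_span (Set.mem_insert_of_mem _ ⟨i, rfl⟩)
        rw [heq]
        apply hlin
        intro c hc
        have h1 := deg_le_of_mem hc
        have h2 : (monomial m' (1 : κ) * F i.succ).totalDegree ≤ m'.degree + (F i.succ).totalDegree := by
          refine (totalDegree_mul _ _).trans (Nat.add_le_add_right ?_ _)
          refine (totalDegree_monomial_le _ _).trans (le_of_eq ?_)
          rw [Finsupp.degree_apply]; rfl
        have h3 := hF i.succ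
        exact ihD c.degree (by omega) (c 0) c le_rfl le_rfl
      · push Not at hbig
        have hr : r ≤ m 0 := by
          by_contra h
          exact hR ⟨not_le.mp h, hbig⟩
        set m' := m - Finsupp.single 0 r with hm'
        have hle : Finsupp.single 0 r ≤ m := by rwa [Finsupp.single_le_iff]
        have hmm : m' + Finsupp.single 0 r = m := tsub_add_cancel_of_le hle
        obtain ⟨hcr, hcl⟩ := top_coeff hP hPm
        have heq : Ideal.Quotient.mkₐ κ (fid P F Q) (monomial m 1) =
            Ideal.Quotient.mkₐ κ (fid P F Q) (monomial m 1 - monomial m' 1 * P) := by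
          rw [Ideal.Quotient.mkₐ_eq_mk, Ideal.Quotient.eq]
          have h1 : monomial m (1 : κ) - (monomial m 1 - monomial m' 1 * P) =
              monomial m' 1 * P := by ring
          rw [h1]
          apply Ideal.mul_mem_left
          exact Ideal.subset_span (Set.mem_insert _ _)
        rw [heq]
        apply hlin
        intro c hc
        rw [mem_support_iff, coeff_sub, coeff_monomial_mul', coeff_monomial] at hc
        by_cases hcm : m = c
        · exfalso
          apply hc
          have h1 : m' ≤ c := by rw [← hcm, ← hmm]; exact le_self_add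
          have h2 : c - m' = Finsupp.single 0 r := by
            rw [← hcm, ← hmm, add_tsub_cancel_left]
          rw [if_pos hcm, if_pos h1, h2, hcr, one_mul, sub_self]
        · rw [if_neg hcm, zero_sub, neg_ne_zero] at hc
          by_cases h1 : m' ≤ c
          · rw [if_pos h1, one_mul] at hc
            have h3 : m' + (c - m') = c := add_tsub_cancel_of_le h1
            have h4 : c - m' ≠ Finsupp.single 0 r := by
              intro h4
              apply hcm
              rw [← h3, h4, hmm]
            have h5 := hcl (c - m') (mem_support_iff.mpr hc) h4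
            have h6 : (c - m').degree = r :=
              (DFunLike.congr_fun (Finsupp.degree_eq_weight_one (R := ℕ)) (c - m')).trans (hP hc)
            have h7 : c 0 < m 0 := by
              rw [← h3, ← hmm, Finsupp.add_apply, Finsupp.add_apply, Finsupp.single_eq_same]
              omega
            have h8 : c.degree = m.degree := by
              rw [← h3, ← hmm, map_add, map_add, h6, Finsupp.degree_single]
            exact ihe (c 0) (by omega) c (by omega) le_rfl
          · rw [if_neg h1] at hc
            exact absurd rfl hc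

end

section

variable {N r Q : ℕ} {κ : Type} [Field κ] {P : Po (N + 1) κ} {F : Tup (N + 1) κ}

/-- the reduced monomials span the quotient -/
theorem span_fid (hP : P.IsHomogeneous r) (hPm : Mny P) (hF : ∀ i, (F i).totalDegree < Q) :
    SpR P F r Q = ⊤ := by
  rw [eq_top_iff]
  rintro a -
  obtain ⟨g, rfl⟩ := Ideal.Quotient.mkₐ_surjective κ _ a
  rw [← support_sum_monomial_coeff g, map_sum]
  apply Submodule.sum_mem
  intro c hc
  have h1 : monomial c (coeff c g) = coeff c g • monomial c (1 : κ) := by
    rw [smul_monomial, smul_eq_mul, mul_one]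
  rw [h1, map_smul]
  exact Submodule.smul_mem _ _ (mono_mem hP hPm hF c.degree (c 0) c le_rfl le_rfl)

/-- the set of the reduced exponents -/
theorem rd_range (r Q : ℕ) : {m : Fin (N + 1) →₀ ℕ | Rd r Q m} =
    Set.range fun α : Fin r × (Fin N → Fin Q) =>
      Finsupp.cons (α.1 : ℕ) (Finsupp.equivFunOnFinite.symm fun i => (α.2 i : ℕ)) := by
  ext m
  constructor
  · rintro ⟨h0, h1⟩
    refine ⟨(⟨m 0, h0⟩, fun i => ⟨m i.succ, h1 i⟩), ?_⟩
    have h2 : (Finsupp.equivFunOnFinite.symm fun i : Fin N => m i.succ) = m.tail := by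
      ext i
      rfl
    change Finsupp.cons (m 0) (Finsupp.equivFunOnFinite.symm fun i : Fin N => m i.succ) = m
    rw [h2, Finsupp.cons_tail]
  · rintro ⟨α, rfl⟩
    constructor
    · simp only [Finsupp.cons_zero]
      exact α.1.2
    · intro i
      simp only [Finsupp.cons_succ]
      exact (α.2 i).2

end

theorem pf_NIX : T_NIX := by
  classical
  intro N r Q M κ _ P F b hP hPm hrQ hF hb
  have hspan := span_fid hP hPm hF
  rw [SpR, rd_range, ← Set.range_comp] at hspan
  have hfin : Module.Finite κ (Po (N + 1) κ ⧸ fid P F Q) := by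
    refine ⟨?_⟩
    rw [← hspan]
    exact Submodule.fg_span (Set.finite_range _)
  have hrank : Module.finrank κ (Po (N + 1) κ ⧸ fid P F Q) ≤ Q ^ (N + 1) := by
    have h1 := finrank_range_le_card (R := κ)
      ((fun m => Ideal.Quotient.mkₐ κ (fid P F Q) (monomial m 1)) ∘
        fun α : Fin r × (Fin N → Fin Q) =>
          Finsupp.cons (α.1 : ℕ) (Finsupp.equivFunOnFinite.symm fun i => (α.2 i : ℕ)))
    rw [Set.finrank, hspan, finrank_top, Fintype.card_prod, Fintype.card_fun, Fintype.card_fin,
      Fintype.card_fin, Fintype.card_fin] at h1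
    refine h1.trans ?_
    rw [pow_succ, mul_comm]
    exact Nat.mul_le_mul_left _ hrQ
  set I := fid P F Q with hI
  set a : Po (N + 1) κ ⧸ I := Ideal.Quotient.mkₐ κ I b with ha
  have h1 : a ^ M = 0 := by
    rw [ha, ← map_pow, Ideal.Quotient.mkₐ_eq_mk, Ideal.Quotient.eq_zero_iff_mem]
    exact hb
  have h2 : IsNilpotent (Algebra.lmul κ (Po (N + 1) κ ⧸ I) a) := by
    refine ⟨M, ?_⟩
    rw [← map_pow, h1, map_zero]
  have h3 := IsNilpotent.charpoly_eq_X_pow_finrank h2
  have h4 := LinearMap.aeval_self_charpoly (Algebra.lmul κ (Po (N + 1) κ ⧸ I) a)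
  rw [h3, Polynomial.aeval_X_pow, ← map_pow] at h4
  have h5 : a ^ Module.finrank κ (Po (N + 1) κ ⧸ I) = 0 := by
    have := LinearMap.congr_fun h4 1
    simpa using this
  have h6 : a ^ (Q ^ (N + 1)) = 0 := pow_eq_zero_of_le hrank h5
  rw [ha, ← map_pow, Ideal.Quotient.mkₐ_eq_mk, Ideal.Quotient.eq_zero_iff_mem] at h6
  exact h6

end Pool.Agent.H8.HX
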